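import Pool.Agent.P.MP_e4ac67_pr.V.Main
import Pool.Agent.P.MP_e4ac67_pr.D.SawMu
import Pool.Agent.P.MP_e4ac67_pr.Emb.Ori
import Pool.Agent.P.MP_e4ac67_pr.Emb.Reg

open Pool.Agent.P.MP_e4ac67_pr

theorem Pool.Agent.Results.MP_e4ac67_pr.Embedded.result :
    ∀ k : ℕ, 7 ≤ k →
      (∃ (V' : Type) (Tk : EmbTri V'), ∀ v, (Tk.G.neighborSet v).ncard = k) ∧
      ∀ (V V' : Type) (T : EmbTri V) (Tk : EmbTri V'), (∀ v, k ≤ (T.G.neighborSet v).ncard) →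
        (∀ v, (Tk.G.neighborSet v).ncard = k) →
        (∀ (v : V) (v' : V'), connConst Tk.G v' ≤ connConst T.G v) ∧
          pcSite T.G ≤ pcSite Tk.G ∧ pcBond T.G ≤ pcBond Tk.G := by
  refine fun k hk => ⟨⟨_, Reg.exists_reg (by omega)⟩, fun V V' T Tk hT h => ?_⟩
  obtain ⟨P, e⟩ := T.exists_planeTri
  obtain ⟨P', e'⟩ := Tk.exists_planeTri
  rw [← e] at hT ⊢
  rw [← e'] at h ⊢
  exact ⟨Gr.Saw.mu_le hk hT h, Gr.site_all hk hT h, Gr.bond_all hk hT h⟩
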